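import Pool.Agent.N984.QX.Stm

set_option autoImplicit false

/-!
# Project QX (helper984): leaf STATE (helper985)

The stabilizer state of a self-dual code is maximally mixed on the good sets.
-/

namespace Pool.Agent.N985.QX.STATE

open Pool.Agent.N984.QX
open scoped ComplexConjugate

/-! ### Signs -/

/-- the sign -/
noncomputable def sg (z : ZMod 2) : ℂ := if z = 0 then 1 else -1

theorem z2 : ∀ z : ZMod 2, z = 0 ∨ z = 1 := by decide

theorem sg_zero : sg 0 = 1 := if_pos rfl

theorem sg_one : sg 1 = -1 := if_neg (by decide)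

theorem sg_add (a b : ZMod 2) : sg (a + b) = sg a * sg b := by
  have h2 : (1 : ZMod 2) + 1 = 0 := by decide
  rcases z2 a with rfl | rfl <;> rcases z2 b with rfl | rfl
  · rw [add_zero, sg_zero, one_mul]
  · rw [zero_add, sg_zero, one_mul]
  · rw [add_zero, sg_zero, mul_one]
  · rw [h2, sg_zero, sg_one]
    norm_num

theorem sg_mul_self (a : ZMod 2) : sg a * sg a = 1 := by
  rcases z2 a with rfl | rfl
  · rw [sg_zero, one_mul]
  · rw [sg_one]
    norm_num

theorem add_self {ι : Type} (x : ι → ZMod 2) : x + x = 0 :=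
  funext fun i => CharTwo.add_self_eq_zero (x i)

theorem sg_conj (a : ZMod 2) : conj (sg a) = sg a := by
  rcases z2 a with rfl | rfl
  · rw [sg_zero, map_one]
  · rw [sg_one, map_neg, map_one]

/-- orthogonality -/
theorem orth {ι : Type} [Fintype ι] [DecidableEq ι] (y : ι → ZMod 2) :
    ∑ t : ι → ZMod 2, sg (∑ i, t i * y i) = if y = 0 then (2 : ℂ) ^ Fintype.card ι else 0 := by
  split_ifs with h
  · subst h
    have h1 : ∀ t : ι → ZMod 2, sg (∑ i, t i * (0 : ι → ZMod 2) i) = 1 := by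
      intro t
      rw [Finset.sum_eq_zero (fun i _ => by rw [Pi.zero_apply, mul_zero]), sg_zero]
    rw [Finset.sum_congr rfl fun t _ => h1 t, Finset.sum_const, Finset.card_univ,
      Fintype.card_pi, Finset.prod_const, ZMod.card, Finset.card_univ, nsmul_eq_mul, mul_one]
    push_cast
    rfl
  · obtain ⟨j, hj⟩ := Function.ne_iff.1 h
    have hj1 : y j = 1 := (z2 (y j)).resolve_left hj
    have h1 : ∑ t : ι → ZMod 2, sg (∑ i, (t + (Pi.single j 1 : ι → ZMod 2)) i * y i) =
        ∑ t : ι → ZMod 2, sg (∑ i, t i * y i) :=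
      Equiv.sum_comp (Equiv.addRight (Pi.single j (1 : ZMod 2) : ι → ZMod 2))
        (fun t : ι → ZMod 2 => sg (∑ i, t i * y i))
    have h2 : ∀ t : ι → ZMod 2,
        sg (∑ i, (t + (Pi.single j 1 : ι → ZMod 2)) i * y i) = -sg (∑ i, t i * y i) := by
      intro t
      have e : ∑ i, (t + (Pi.single j 1 : ι → ZMod 2)) i * y i = ∑ i, t i * y i + 1 := by
        simp only [Pi.add_apply, add_mul, Finset.sum_add_distrib]
        congr 1
        rw [Finset.sum_eq_single j (fun b _ hb => by rw [Pi.single_eq_of_ne hb, zero_mul])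
          (fun h => absurd (Finset.mem_univ j) h), Pi.single_eq_same, one_mul, hj1]
      rw [e, sg_add, sg_one, mul_neg_one]
    rw [Finset.sum_congr rfl fun t _ => h2 t, Finset.sum_neg_distrib] at h1
    have h3 : (2 : ℂ) * ∑ t : ι → ZMod 2, sg (∑ i, t i * y i) = 0 := by linear_combination -h1
    exact (mul_eq_zero.mp h3).resolve_left two_ne_zero

/-! ### The Pauli operators -/

section pauli

variable {n : ℕ}

/-- the operator -/
noncomputable def T (v : Vc n) (f : (Fin n → ZMod 2) → ℂ) : (Fin n → ZMod 2) → ℂ :=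
  fun x => sg (∑ i, (v i).2 * x i) * f (x + fun i => (v i).1)

/-- the inner product -/
noncomputable def ip (f g : (Fin n → ZMod 2) → ℂ) : ℂ := ∑ x, conj (f x) * g x

theorem T_add (v : Vc n) (f g : (Fin n → ZMod 2) → ℂ) : T v (f + g) = T v f + T v g := by
  funext x
  simp only [T, Pi.add_apply, mul_add]

theorem T_smul (v : Vc n) (c : ℂ) (f : (Fin n → ZMod 2) → ℂ) : T v (c • f) = c • T v f := by
  funext x
  simp only [T, Pi.smul_apply, smul_eq_mul]
  ring

theorem T_comm (v w : Vc n) (f : (Fin n → ZMod 2) → ℂ) :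
    T v (T w f) = sg (B v w) • T w (T v f) := by
  funext x
  simp only [T, Pi.smul_apply, smul_eq_mul, B, Pi.add_apply, mul_add, Finset.sum_add_distrib,
    sg_add]
  have e1 : x + (fun i => (v i).1) + (fun i => (w i).1) =
      x + (fun i => (w i).1) + (fun i => (v i).1) := add_right_comm _ _ _
  have e2 : ∑ i, (v i).1 * (w i).2 = ∑ i, (w i).2 * (v i).1 :=
    Finset.sum_congr rfl fun i _ => mul_comm _ _
  rw [e1, e2]
  linear_combination (-(sg (∑ i, (v i).2 * x i) * sg (∑ i, (w i).2 * x i) *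
    sg (∑ i, (w i).2 * (v i).1) * f (x + (fun i => (w i).1) + (fun i => (v i).1)))) *
    sg_mul_self (∑ i, (v i).2 * (w i).1)

theorem T_sq (v : Vc n) (f : (Fin n → ZMod 2) → ℂ) :
    T v (T v f) = sg (∑ i, (v i).2 * (v i).1) • f := by
  funext x
  simp only [T, Pi.smul_apply, smul_eq_mul, Pi.add_apply, mul_add, Finset.sum_add_distrib,
    sg_add]
  have e1 : x + (fun i => (v i).1) + (fun i => (v i).1) = x := by
    rw [add_assoc, add_self, add_zero]
  rw [e1]
  linear_combination (sg (∑ i, (v i).2 * (v i).1) * f x) * sg_mul_self (∑ i, (v i).2 * x i)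

theorem ip_T (v : Vc n) (f g : (Fin n → ZMod 2) → ℂ) : ip (T v f) (T v g) = ip f g := by
  unfold ip
  have e : ∑ x, conj (f x) * g x =
      ∑ x, conj (f (x + fun i => (v i).1)) * g (x + fun i => (v i).1) :=
    (Equiv.sum_comp (Equiv.addRight (fun i => (v i).1 : Fin n → ZMod 2))
      (fun x => conj (f x) * g x)).symm
  rw [e]
  refine Finset.sum_congr rfl fun x _ => ?_
  simp only [T, map_mul, sg_conj]
  linear_combination (conj (f (x + fun i => (v i).1)) * g (x + fun i => (v i).1)) *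
    sg_mul_self (∑ i, (v i).2 * x i)

theorem ip_smul (c d : ℂ) (f g : (Fin n → ZMod 2) → ℂ) :
    ip (c • f) (d • g) = conj c * d * ip f g := by
  unfold ip
  rw [Finset.mul_sum]
  refine Finset.sum_congr rfl fun x _ => ?_
  simp only [Pi.smul_apply, smul_eq_mul, map_mul]
  ring

/-- a common eigenvector -/
theorem exists_vec (C : Submodule (ZMod 2) (Vc n)) (hC : ∀ v ∈ C, ∀ w ∈ C, B v w = 0)
    (F : Finset (Vc n)) (hF : ∀ v ∈ F, v ∈ C) : ∃ f : (Fin n → ZMod 2) → ℂ, f ≠ 0 ∧
      ∀ v ∈ F, ∃ c : ℂ, T v f = c • f := by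
  classical
  induction F using Finset.induction_on with
  | empty =>
    refine ⟨1, one_ne_zero, fun v hv => absurd hv (Finset.notMem_empty v)⟩
  | insert v F _ ih =>
    obtain ⟨f, hf, h⟩ := ih fun w hw => hF w (Finset.mem_insert_of_mem hw)
    have hv : v ∈ C := hF v (Finset.mem_insert_self v F)
    obtain ⟨r, hr⟩ : ∃ r : ℂ, r * r = sg (∑ i, (v i).2 * (v i).1) := by
      rcases z2 (∑ i, (v i).2 * (v i).1) with e | e
      · exact ⟨1, by rw [e, sg_zero, one_mul]⟩
      · exact ⟨Complex.I, by rw [e, sg_one, Complex.I_mul_I]⟩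
    have hr0 : r ≠ 0 := by
      rintro rfl
      have := sg_mul_self (∑ i, (v i).2 * (v i).1)
      rw [← hr] at this
      simp at this
    have step : ∀ e : ℂ, e * e = 1 → f + (e * r⁻¹) • T v f ≠ 0 →
        ∃ f : (Fin n → ZMod 2) → ℂ, f ≠ 0 ∧ ∀ w ∈ insert v F, ∃ c : ℂ, T w f = c • f := by
      intro e he hne
      refine ⟨_, hne, fun w hw => ?_⟩
      rcases Finset.mem_insert.1 hw with rfl | hw
      · refine ⟨e * r, ?_⟩
        rw [T_add, T_smul, T_sq, ← hr, smul_smul, smul_add, smul_smul]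
        have e1 : e * r * (e * r⁻¹) = 1 := by
          field_simp
          linear_combination he
        have e2 : e * r⁻¹ * (r * r) = e * r := by
          field_simp
        rw [e1, e2, one_smul, add_comm]
      · obtain ⟨c, hc⟩ := h w hw
        refine ⟨c, ?_⟩
        rw [T_add, T_smul, T_comm w v, hC w (hF w (Finset.mem_insert_of_mem hw)) v hv, sg_zero,
          one_smul, hc, T_smul, smul_add, smul_comm]
    by_cases h1 : f + ((1 : ℂ) * r⁻¹) • T v f = 0
    · refine step (-1) (by norm_num) fun h2 => hf ?_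
      have h3 : (2 : ℂ) • f = 0 := by
        have : (2 : ℂ) • f = (f + ((1 : ℂ) * r⁻¹) • T v f) + (f + ((-1 : ℂ) * r⁻¹) • T v f) := by
          module
        rw [this, h1, h2, add_zero]
      exact (smul_eq_zero.mp h3).resolve_left two_ne_zero
    · exact step 1 (by norm_num) h1

end pauli

/-! ### Reduced density matrices -/

section red

variable {n : ℕ} (ψ : (Fin n → ZMod 2) → ℂ) (A : Finset (Fin n))

theorem sum_glue (F : (Fin n → ZMod 2) → ℂ) :
    ∑ x, F x = ∑ a : {i // i ∈ A} → ZMod 2, ∑ b : {i // i ∉ A} → ZMod 2, F (glue A a b) := by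
  rw [← (Equiv.piEquivPiSubtypeProd (fun i => i ∈ A) (fun _ => ZMod 2)).symm.sum_comp F,
    Fintype.sum_prod_type]
  rfl

/-- the entries of the reduced density matrix -/
noncomputable def R (s a : {i // i ∈ A} → ZMod 2) : ℂ :=
  ∑ b : {i // i ∉ A} → ZMod 2, conj (ψ (glue A a b)) * ψ (glue A (a + s) b)

/-- the vector supported in `A` -/
def vec (s t : {i // i ∈ A} → ZMod 2) : Vc n :=
  fun i => if h : i ∈ A then (s ⟨i, h⟩, t ⟨i, h⟩) else 0

theorem ip_vec (s t : {i // i ∈ A} → ZMod 2) :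
    ip ψ (T (vec A s t) ψ) = ∑ a, sg (∑ i, t i * a i) * R ψ A s a := by
  unfold ip
  rw [sum_glue A]
  refine Finset.sum_congr rfl fun a _ => ?_
  unfold R
  rw [Finset.mul_sum]
  refine Finset.sum_congr rfl fun b _ => ?_
  have e1 : ∑ i, (vec A s t i).2 * glue A a b i = ∑ i, t i * a i := by
    rw [← Fintype.sum_subtype_add_sum_subtype (fun i => i ∈ A)]
    have e2 : ∑ i : {i // i ∉ A}, (vec A s t i).2 * glue A a b i = 0 := by
      refine Finset.sum_eq_zero fun i _ => ?_
      unfold vec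
      rw [dif_neg i.2, Prod.snd_zero, zero_mul]
    rw [e2, add_zero]
    refine Finset.sum_congr (by ext x; simp only [Finset.mem_univ]) fun i _ => ?_
    unfold vec glue
    rw [dif_pos i.2, dif_pos i.2]
  have e3 : glue A a b + (fun i => (vec A s t i).1) = glue A (a + s) b := by
    funext i
    rw [Pi.add_apply]
    unfold vec glue
    by_cases h : i ∈ A
    · rw [dif_pos h, dif_pos h, dif_pos h, Pi.add_apply]
    · rw [dif_neg h, dif_neg h, dif_neg h, Prod.fst_zero, add_zero]
  unfold T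
  rw [e1, e3]
  ring

theorem maxMixed_of (h0 : ip ψ ψ = 1)
    (h : ∀ s t : {i // i ∈ A} → ZMod 2, (s ≠ 0 ∨ t ≠ 0) → ip ψ (T (vec A s t) ψ) = 0) :
    MaxMixed ψ A := by
  classical
  have hT0 : T (vec A 0 0) ψ = ψ := by
    have hv : vec A 0 0 = 0 := by
      funext i
      unfold vec
      split_ifs <;> rfl
    rw [hv]
    funext x
    show sg (∑ i, (0 : ZMod 2) * x i) * ψ (x + 0) = ψ x
    rw [Finset.sum_eq_zero (fun i _ => zero_mul _), sg_zero, one_mul, add_zero]
  have hR : ∀ s a0 : {i // i ∈ A} → ZMod 2,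
      (2 : ℂ) ^ A.card * R ψ A s a0 = if s = 0 then 1 else 0 := by
    intro s a0
    have h1 : ∑ t : {i // i ∈ A} → ZMod 2, sg (∑ i, t i * a0 i) *
        ip ψ (T (vec A s t) ψ) = (2 : ℂ) ^ A.card * R ψ A s a0 := by
      have h2 : ∀ t : {i // i ∈ A} → ZMod 2, sg (∑ i, t i * a0 i) * ip ψ (T (vec A s t) ψ) =
          ∑ a, sg (∑ i, t i * (a0 + a) i) * R ψ A s a := by
        intro t
        rw [ip_vec, Finset.mul_sum]
        refine Finset.sum_congr rfl fun a _ => ?_
        simp only [Pi.add_apply, mul_add, Finset.sum_add_distrib, sg_add]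
        ring
      rw [Finset.sum_congr rfl fun t _ => h2 t, Finset.sum_comm]
      have h3 : ∀ a : {i // i ∈ A} → ZMod 2, ∑ t : {i // i ∈ A} → ZMod 2,
          sg (∑ i, t i * (a0 + a) i) * R ψ A s a =
            if a0 = a then (2 : ℂ) ^ A.card * R ψ A s a else 0 := by
        intro a
        rw [← Finset.sum_mul, orth, Fintype.card_coe]
        have h4 : a0 + a = 0 ↔ a0 = a := by
          constructor
          · intro h6
            have h7 := congrArg (· + a) h6
            rwa [add_assoc, add_self, add_zero, zero_add] at h7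
          · rintro rfl
            exact add_self a0
        by_cases h5 : a0 = a
        · rw [if_pos h5, if_pos (h4.2 h5)]
        · rw [if_neg h5, if_neg (fun h6 => h5 (h4.1 h6)), zero_mul]
      rw [Finset.sum_congr rfl fun a _ => h3 a, Finset.sum_ite_eq, if_pos (Finset.mem_univ _)]
    rw [← h1]
    split_ifs with hs
    · subst hs
      rw [Finset.sum_eq_single 0 (fun t _ ht => by rw [h 0 t (Or.inr ht), mul_zero])
        (fun h => absurd (Finset.mem_univ _) h), hT0, h0, mul_one,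
        Finset.sum_eq_zero (fun i _ => by rw [Pi.zero_apply, zero_mul]), sg_zero]
    · exact Finset.sum_eq_zero fun t _ => by rw [h s t (Or.inl hs), mul_zero]
  have h2 : (2 : ℂ) ^ A.card ≠ 0 := pow_ne_zero _ two_ne_zero
  unfold MaxMixed
  ext a a'
  rw [Matrix.mul_apply, Matrix.smul_apply, smul_eq_mul, Matrix.one_apply]
  have e : ∑ b, mat ψ A a b * (mat ψ A).conjTranspose b a' = R ψ A (a - a') a' := by
    unfold R
    refine Finset.sum_congr rfl fun b _ => ?_
    rw [Matrix.conjTranspose_apply, add_sub_cancel]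
    unfold mat
    rw [Matrix.of_apply, Matrix.of_apply, mul_comm]
    rfl
  rw [e]
  have h3 := hR (a - a') a'
  rw [eq_inv_mul_iff_mul_eq₀ h2, h3]
  by_cases h4 : a = a'
  · rw [if_pos h4, if_pos (sub_eq_zero.2 h4)]
  · rw [if_neg h4, if_neg (fun h5 => h4 (sub_eq_zero.1 h5))]

end red

theorem t_STATE : S_STATE := by
  classical
  intro n C hC
  have hCC : ∀ v ∈ C, ∀ w ∈ C, B v w = 0 := fun v hv w hw => (hC v).1 hv w hw
  obtain ⟨f, hf, h⟩ := exists_vec C hCC (Finset.univ.filter fun v => v ∈ C)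
    fun v hv => (Finset.mem_filter.1 hv).2
  have hpos : 0 < ∑ x, ‖f x‖ ^ 2 := by
    obtain ⟨x, hx⟩ := Function.ne_iff.1 hf
    refine Finset.sum_pos' (fun x _ => by positivity) ⟨x, Finset.mem_univ x, ?_⟩
    have : 0 < ‖f x‖ := norm_pos_iff.2 hx
    positivity
  set r : ℝ := (Real.sqrt (∑ x, ‖f x‖ ^ 2))⁻¹ with hr
  obtain ⟨ψ, hψ⟩ : ∃ ψ : (Fin n → ZMod 2) → ℂ, ψ = (r : ℂ) • f := ⟨_, rfl⟩
  have hN : Normalised ψ := by
    unfold Normalised
    have e : ∀ x, ‖ψ x‖ ^ 2 = r ^ 2 * ‖f x‖ ^ 2 := by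
      intro x
      rw [hψ, Pi.smul_apply, smul_eq_mul, norm_mul, Complex.norm_real, mul_pow, Real.norm_eq_abs,
        sq_abs]
    rw [Finset.sum_congr rfl fun x _ => e x, ← Finset.mul_sum, hr, inv_pow,
      Real.sq_sqrt hpos.le, inv_mul_cancel₀ hpos.ne']
  have h0 : ip ψ ψ = 1 := by
    unfold ip
    have e : ∀ x, conj (ψ x) * ψ x = ((‖ψ x‖ ^ 2 : ℝ) : ℂ) := by
      intro x
      rw [mul_comm, Complex.mul_conj, Complex.normSq_eq_norm_sq]
    rw [Finset.sum_congr rfl fun x _ => e x, ← Complex.ofReal_sum, hN, Complex.ofReal_one]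
  have hev : ∀ v ∈ C, ∃ c : ℂ, conj c * c = 1 ∧ T v ψ = c • ψ := by
    intro v hv
    obtain ⟨c, hc⟩ := h v (Finset.mem_filter.2 ⟨Finset.mem_univ v, hv⟩)
    have h1 : T v ψ = c • ψ := by
      rw [hψ, T_smul, hc, smul_comm]
    refine ⟨c, ?_, h1⟩
    have h2 := ip_T v ψ ψ
    rw [h1, ip_smul, h0, mul_one] at h2
    exact h2
  refine ⟨ψ, hN, fun A hA => maxMixed_of ψ A h0 fun s t hst => ?_⟩
  have hu : vec A s t ∉ C := by
    intro hu
    have h1 := hA _ hu (by
      intro i hi
      unfold vec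
      rw [dif_neg hi])
    rcases hst with hs | ht
    · refine hs (funext fun i => ?_)
      have h2 := congrArg Prod.fst (congrFun h1 i)
      unfold vec at h2
      rw [dif_pos i.2] at h2
      exact h2
    · refine ht (funext fun i => ?_)
      have h2 := congrArg Prod.snd (congrFun h1 i)
      unfold vec at h2
      rw [dif_pos i.2] at h2
      exact h2
  rw [hC] at hu
  push Not at hu
  obtain ⟨w, hw, hB⟩ := hu
  have hB1 : B (vec A s t) w = 1 := (z2 _).resolve_left hB
  have hB2 : B w (vec A s t) = 1 := by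
    rw [← hB1]
    unfold B
    exact Finset.sum_congr rfl fun i _ => by ring
  obtain ⟨c, hc1, hc2⟩ := hev w hw
  have h1 : ip ψ (T (vec A s t) ψ) = -ip ψ (T (vec A s t) ψ) := by
    calc ip ψ (T (vec A s t) ψ) = ip (T w ψ) (T w (T (vec A s t) ψ)) := (ip_T w _ _).symm
      _ = ip (c • ψ) ((-c) • T (vec A s t) ψ) := by
        rw [T_comm, hB2, sg_one, hc2, T_smul, neg_one_smul, ← neg_smul]
      _ = -ip ψ (T (vec A s t) ψ) := by
        rw [ip_smul]
        linear_combination (-ip ψ (T (vec A s t) ψ)) * hc1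
  have h2 : (2 : ℂ) * ip ψ (T (vec A s t) ψ) = 0 := by linear_combination h1
  exact (mul_eq_zero.mp h2).resolve_left two_ne_zero

end Pool.Agent.N985.QX.STATE
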