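import Pool.Agent.N984.QX.Stm

set_option autoImplicit false

/-!
# Project QX (helper984): leaf EX12 (helper985)

A graph state of twelve qubits which is maximally mixed on `720` sets of six qubits.
-/

namespace Pool.Agent.N985.QX.EX12

open Pool.Agent.N984.QX

/-- The adjacency matrix of the graph: bit `j` of the number `i`. -/
def rowsL : List ℕ := [682, 4021, 1898, 1749, 1514, 3031, 956, 3707, 3190, 3311, 926, 930]

/-- the row `i` -/
def row (i : ℕ) : ℕ := rowsL.getD i 0

/-- the entries -/
def Gm (i j : Fin 12) : ZMod 2 := bif (row i).testBit j then 1 else 0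

theorem Gm_symm : ∀ i j, Gm i j = Gm j i := by decide +kernel

/-- The code of the graph. -/
def Cd : Submodule (ZMod 2) (Vc 12) where
  carrier := {v | ∀ i, (v i).2 = ∑ j, Gm i j * (v j).1}
  zero_mem' := by
    intro i
    simp
  add_mem' := by
    intro v w hv hw i
    simp only [Pi.add_apply, Prod.snd_add, Prod.fst_add, mul_add, Finset.sum_add_distrib]
    rw [hv i, hw i]
  smul_mem' := by
    intro c v hv i
    simp only [Pi.smul_apply, Prod.smul_snd, Prod.smul_fst, smul_eq_mul]
    rw [hv i, Finset.mul_sum]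
    exact Finset.sum_congr rfl fun j _ => by ring

theorem selfDual_Cd : SelfDual Cd := by
  intro v
  constructor
  · intro hv w hw
    have hv' : ∀ i, (v i).2 = ∑ j, Gm i j * (v j).1 := hv
    have hw' : ∀ i, (w i).2 = ∑ j, Gm i j * (w j).1 := hw
    unfold B
    rw [Finset.sum_add_distrib]
    have e : ∑ i, (v i).1 * (w i).2 = ∑ i, (v i).2 * (w i).1 := by
      simp only [hv', hw', Finset.mul_sum, Finset.sum_mul]
      rw [Finset.sum_comm]
      refine Finset.sum_congr rfl fun i _ => Finset.sum_congr rfl fun j _ => ?_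
      rw [Gm_symm j i]
      ring
    rw [e]
    exact CharTwo.add_self_eq_zero _
  · intro h j
    have h1 := h (fun i => (if i = j then 1 else 0, Gm i j)) (by
      intro i
      show Gm i j = ∑ k, Gm i k * (if k = j then 1 else 0)
      rw [Finset.sum_eq_single j (fun b _ hb => by rw [if_neg hb, mul_zero])
        (fun h => absurd (Finset.mem_univ j) h), if_pos rfl, mul_one])
    unfold B at h1
    rw [Finset.sum_add_distrib] at h1
    have e : ∑ i, (v i).2 * (if i = j then (1 : ZMod 2) else 0) = (v j).2 := by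
      rw [Finset.sum_eq_single j (fun b _ hb => by rw [if_neg hb, mul_zero])
        (fun h => absurd (Finset.mem_univ j) h), if_pos rfl, mul_one]
    simp only at h1
    rw [e] at h1
    have h2 : ∑ i, (v i).1 * Gm i j = ∑ k, Gm j k * (v k).1 :=
      Finset.sum_congr rfl fun k _ => by rw [Gm_symm j k, mul_comm]
    rw [h2] at h1
    have h3 := CharTwo.add_self_eq_zero (∑ k, Gm j k * (v k).1)
    linear_combination h1 - h3

/-! ### The check -/

/-- number of bits -/
def pop (m : ℕ) : ℕ → ℕ
  | 0 => 0
  | n + 1 => pop m n + (bif m.testBit n then 1 else 0)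

/-- the rows with the index in `m` -/
def rl (m : ℕ) : ℕ → List ℕ
  | 0 => []
  | n + 1 => bif m.testBit n then row n :: rl m n else rl m n

/-- all nonempty sums are not zero on `cm` -/
def chk (cm : ℕ) : List ℕ → ℕ → Bool → Bool
  | [], acc, nz => !nz || !(Nat.beq (acc &&& cm) 0)
  | r :: rs, acc, nz => chk cm rs acc nz && chk cm rs (acc ^^^ r) true

/-- the test -/
def tst (m : ℕ) : Bool := Nat.beq (pop m 12) 6 && chk (4095 ^^^ m) (rl m 12) 0 false

/-- counting -/
def cnt (p : ℕ → Bool) (lo : ℕ) : ℕ → ℕ
  | 0 => bif p lo then 1 else 0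
  | k + 1 => cnt p lo k + cnt p (lo + 2 ^ k) k

theorem cnt_eq (p : ℕ → Bool) (k : ℕ) : ∀ lo : ℕ,
    cnt p lo k = ((Finset.Ico lo (lo + 2 ^ k)).filter fun m => p m = true).card := by
  induction k with
  | zero =>
    intro lo
    have e : Finset.Ico lo (lo + 2 ^ 0) = {lo} := by
      ext x
      simp
    rw [e, Finset.filter_singleton]
    unfold cnt
    cases h : p lo <;> simp
  | succ k ih =>
    intro lo
    have e : Finset.Ico lo (lo + 2 ^ (k + 1)) =
        Finset.Ico lo (lo + 2 ^ k) ∪ Finset.Ico (lo + 2 ^ k) (lo + 2 ^ k + 2 ^ k) := by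
      rw [Finset.Ico_union_Ico_eq_Ico (Nat.le_add_right _ _) (Nat.le_add_right _ _), pow_succ]
      congr 1
      ring
    rw [e, Finset.filter_union, Finset.card_union_of_disjoint, ← ih, ← ih]
    · rfl
    · exact Finset.disjoint_filter_filter (Finset.Ico_disjoint_Ico_consecutive _ _ _)

set_option maxRecDepth 100000 in
theorem count : 720 ≤ cnt tst 0 12 := by decide +kernel

/-! ### Soundness -/

/-- the sum of the rows -/
def SS (a : ℕ → Bool) : ℕ → ℕ
  | 0 => 0
  | n + 1 => SS a n ^^^ (bif a n then row n else 0)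

theorem chk_sound (cm m : ℕ) (a : ℕ → Bool) (n : ℕ) : ∀ (acc : ℕ) (nz : Bool),
    chk cm (rl m n) acc nz = true → (∀ j < n, a j = true → m.testBit j = true) →
    (nz = true ∨ ∃ j < n, a j = true) → (acc ^^^ SS a n) &&& cm ≠ 0 := by
  induction n with
  | zero =>
    intro acc nz h _ hnz
    have h1 : nz = true := by
      rcases hnz with h1 | ⟨j, hj, _⟩
      · exact h1
      · exact absurd hj (Nat.not_lt_zero j)
    subst h1
    unfold rl chk at h
    simp only [Bool.not_true, Bool.false_or, Bool.not_eq_true'] at h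
    intro h2
    unfold SS at h2
    rw [Nat.xor_zero] at h2
    rw [h2] at h
    exact absurd h (by decide)
  | succ n ih =>
    intro acc nz h ha hnz
    have ha' : ∀ j < n, a j = true → m.testBit j = true := fun j hj => ha j (Nat.lt_succ_of_lt hj)
    unfold rl at h
    show (acc ^^^ (SS a n ^^^ (bif a n then row n else 0))) &&& cm ≠ 0
    cases han : a n with
    | false =>
      rw [cond_false, Nat.xor_zero]
      have hnz' : nz = true ∨ ∃ j < n, a j = true := by
        rcases hnz with h1 | ⟨j, hj, h2⟩
        · exact Or.inl h1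
        · refine Or.inr ⟨j, ?_, h2⟩
          rcases Nat.lt_succ_iff_lt_or_eq.1 hj with h3 | rfl
          · exact h3
          · rw [han] at h2
            exact absurd h2 (by decide)
      cases hm : m.testBit n with
      | false =>
        rw [hm, cond_false] at h
        exact ih acc nz h ha' hnz'
      | true =>
        rw [hm, cond_true] at h
        unfold chk at h
        rw [Bool.and_eq_true] at h
        exact ih acc nz h.1 ha' hnz'
    | true =>
      have hm := ha n (Nat.lt_succ_self n) han
      rw [hm, cond_true] at h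
      unfold chk at h
      rw [Bool.and_eq_true] at h
      have h1 := ih (acc ^^^ row n) true h.2 ha' (Or.inl rfl)
      rw [cond_true]
      have e : acc ^^^ (SS a n ^^^ row n) = acc ^^^ row n ^^^ SS a n := by
        rw [Nat.xor_assoc, Nat.xor_comm (row n)]
      rw [e]
      exact h1

/-- a bit as an element of the field -/
def zb (x : Bool) : ZMod 2 := bif x then 1 else 0

theorem zb_xor (x y : Bool) : zb (x ^^ y) = zb x + zb y := by
  cases x <;> cases y <;> decide

theorem zb_SS (a : ℕ → Bool) (k n : ℕ) : zb ((SS a n).testBit k) =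
    ∑ j ∈ Finset.range n, zb (a j) * zb ((row j).testBit k) := by
  induction n with
  | zero =>
    unfold SS
    rw [Nat.zero_testBit, Finset.range_zero, Finset.sum_empty]
    rfl
  | succ n ih =>
    unfold SS
    rw [Nat.testBit_xor, zb_xor, ih, Finset.sum_range_succ]
    congr 1
    cases a n
    · rw [cond_false, Nat.zero_testBit]
      exact (zero_mul (zb ((row n).testBit k))).symm
    · rw [cond_true]
      show _ = 1 * _
      rw [one_mul]

/-- the set of a number -/
def st (m : ℕ) : Finset (Fin 12) := Finset.univ.filter fun i => m.testBit i = true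

theorem mem_st {m : ℕ} {i : Fin 12} : i ∈ st m ↔ m.testBit i = true := by
  unfold st
  rw [Finset.mem_filter]
  exact and_iff_right (Finset.mem_univ i)

theorem good_of_tst {m : ℕ} (h : tst m = true) : Good Cd (st m) := by
  unfold tst at h
  rw [Bool.and_eq_true] at h
  intro v hv hsup
  have hv' : ∀ i, (v i).2 = ∑ j, Gm i j * (v j).1 := hv
  by_contra hne
  let a : ℕ → Bool := fun j => if hj : j < 12 then decide ((v ⟨j, hj⟩).1 = 1) else false
  have haj : ∀ j : Fin 12, zb (a j) = (v j).1 := by
    intro j
    have e : a j = decide ((v j).1 = 1) := dif_pos j.2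
    rw [e]
    generalize (v j).1 = z
    revert z
    decide
  have hex : ∃ j < 12, a j = true := by
    by_contra hno
    push Not at hno
    apply hne
    have h1 : ∀ j, (v j).1 = 0 := by
      intro j
      rw [← haj j, Bool.eq_false_of_not_eq_true (hno j j.2)]
      rfl
    funext i
    refine Prod.ext (h1 i) ?_
    rw [hv' i]
    exact Finset.sum_eq_zero fun j _ => by rw [h1 j, mul_zero]
  have hsub : ∀ j < 12, a j = true → m.testBit j = true := by
    intro j hj haj'
    by_contra hm
    have h1 := hsup ⟨j, hj⟩ (fun h2 => hm (mem_st.1 h2))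
    have h2 : zb (a j) = (v ⟨j, hj⟩).1 := haj ⟨j, hj⟩
    rw [haj', h1] at h2
    exact absurd h2 (by decide)
  have h1 := chk_sound (4095 ^^^ m) m a 12 0 false h.2 hsub (Or.inr hex)
  rw [Nat.zero_xor] at h1
  obtain ⟨k, hk⟩ := Nat.exists_testBit_of_ne_zero h1
  rw [Nat.testBit_and, Nat.testBit_xor, Bool.and_eq_true] at hk
  obtain ⟨hk1, hk2⟩ := hk
  have h4095 : Nat.testBit 4095 k = decide (k < 12) := Nat.testBit_two_pow_sub_one 12 k
  have hSS := zb_SS a k 12
  by_cases hk12 : k < 12
  · have h3 : ¬ m.testBit k = true := by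
      intro h4
      rw [h4095, h4, decide_eq_true hk12] at hk2
      exact absurd hk2 (by decide)
    have h5 := hsup ⟨k, hk12⟩ (fun h6 => h3 (mem_st.1 h6))
    have h7 : (v ⟨k, hk12⟩).2 = 0 := by rw [h5]; rfl
    rw [hv'] at h7
    rw [hk1, ← Fin.sum_univ_eq_sum_range (fun j => zb (a j) * zb ((row j).testBit k)) 12] at hSS
    have h8 : ∑ j : Fin 12, zb (a j) * zb ((row j).testBit k) =
        ∑ j, Gm ⟨k, hk12⟩ j * (v j).1 := by
      refine Finset.sum_congr rfl fun j _ => ?_
      rw [haj, Gm_symm, mul_comm]
      rfl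
    rw [h8, h7] at hSS
    exact absurd hSS (by decide)
  · have h3 : ∑ j ∈ Finset.range 12, zb (a j) * zb ((row j).testBit k) = 0 := by
      refine Finset.sum_eq_zero fun j hj => ?_
      have h4 : row j < 2 ^ 12 := by
        have : ∀ j < 12, row j < 2 ^ 12 := by decide +kernel
        exact this j (Finset.mem_range.1 hj)
      have h5 : (row j).testBit k = false :=
        Nat.testBit_lt_two_pow (h4.trans_le (Nat.pow_le_pow_right (by norm_num) (not_lt.1 hk12)))
      rw [h5]
      exact mul_zero _
    rw [h3, hk1] at hSS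
    exact absurd hSS (by decide)

theorem card_st (m : ℕ) : (st m).card = pop m 12 := by
  unfold st
  rw [Finset.card_filter, Fin.sum_univ_eq_sum_range (fun i => if m.testBit i = true then 1 else 0)]
  have key : ∀ n, ∑ i ∈ Finset.range n, (if m.testBit i = true then 1 else 0) = pop m n := by
    intro n
    induction n with
    | zero => rfl
    | succ n ih =>
      rw [Finset.sum_range_succ, ih]
      show _ = pop m n + (bif m.testBit n then 1 else 0)
      congr 1
      cases m.testBit n <;> rfl
  exact key 12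

theorem st_inj {m m' : ℕ} (h : m < 4096) (h' : m' < 4096) (e : st m = st m') : m = m' := by
  apply Nat.eq_of_testBit_eq
  intro k
  by_cases hk : k < 12
  · have h1 : (⟨k, hk⟩ : Fin 12) ∈ st m ↔ (⟨k, hk⟩ : Fin 12) ∈ st m' := by rw [e]
    rw [mem_st, mem_st] at h1
    exact Bool.eq_iff_iff.2 h1
  · have h2 : (4096 : ℕ) ≤ 2 ^ k := by
      calc (4096 : ℕ) = 2 ^ 12 := by norm_num
        _ ≤ 2 ^ k := Nat.pow_le_pow_right (by norm_num) (not_lt.1 hk)
    rw [Nat.testBit_lt_two_pow (h.trans_le h2), Nat.testBit_lt_two_pow (h'.trans_le h2)]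

/-- The quantum extremal number of `12` and `6` is at least `720`. -/
theorem t_EX12 (h1 : S_STATE) (h2 : S_QEX) : 720 ≤ Qex 12 6 := by
  classical
  obtain ⟨ψ, hN, hM⟩ := h1 12 Cd selfDual_Cd
  refine le_trans ?_ (h2 12 6 ψ hN)
  unfold numMixed
  refine count.trans ?_
  rw [cnt_eq]
  refine Finset.card_le_card_of_injOn st ?_ ?_
  · intro m hm
    have hm1 : tst m = true := (Finset.mem_filter.1 (Finset.mem_coe.1 hm)).2
    refine Finset.mem_coe.2 (Finset.mem_filter.2 ⟨?_, hM _ (good_of_tst hm1)⟩)
    rw [Finset.mem_powersetCard]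
    refine ⟨Finset.subset_univ _, ?_⟩
    rw [card_st]
    unfold tst at hm1
    rw [Bool.and_eq_true] at hm1
    exact Nat.eq_of_beq_eq_true hm1.1
  · intro m hm m' hm' e
    have h3 := Finset.mem_Ico.1 (Finset.mem_filter.1 (Finset.mem_coe.1 hm)).1
    have h4 := Finset.mem_Ico.1 (Finset.mem_filter.1 (Finset.mem_coe.1 hm')).1
    exact st_inj (by omega) (by omega) e

end Pool.Agent.N985.QX.EX12
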