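import Pool.Agent.N984.QX.Stm

set_option autoImplicit false

/-!
# Project QX (helper984): leaves QEX and LOW (helper985)
-/

namespace Pool.Agent.N985.QX.LOW

open Pool.Agent.N984.QX

/-- The supremum in the definition of `Qex` is over a bounded set. -/
theorem t_QEX : S_QEX := by
  classical
  intro n k ψ hψ
  refine le_csSup ⟨(Finset.powersetCard k (Finset.univ : Finset (Fin n))).card, ?_⟩ ⟨ψ, hψ, rfl⟩
  rintro _ ⟨φ, _, rfl⟩
  exact Finset.card_filter_le _ _

/-- The lower bound from one code. -/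
theorem code_le (h1 : S_STATE) (h3 : S_QEX) {n k : ℕ} {C : Submodule (ZMod 2) (Vc n)}
    (hC : SelfDual C) : Set.ncard {A : Finset (Fin n) | A.card = k ∧ Good C A} ≤ Qex n k := by
  classical
  obtain ⟨ψ, hN, hM⟩ := h1 n C hC
  refine le_trans ?_ (h3 n k ψ hN)
  unfold numMixed
  rw [← Set.ncard_coe_finset]
  refine Set.ncard_le_ncard ?_ (Finset.finite_toSet _)
  rintro A ⟨hA, hG⟩
  refine Finset.mem_coe.2 (Finset.mem_filter.2 ⟨?_, hM A hG⟩)
  exact Finset.mem_powersetCard.2 ⟨Finset.subset_univ _, hA⟩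

/-- The final lower bound. -/
theorem t_LOW (h1 : S_STATE) (h2 : S_AVG) (h3 : S_QEX) (h4 : S_RED) : S_LOW := by
  have hev : ∀ n k : ℕ, Even n →
      (1 - ((4 : ℝ) ^ k + (-2) ^ k - 2) / (3 * (2 ^ n + 2))) * (n.choose k) ≤ Qex n k := by
    intro n k hn
    obtain ⟨C, hC, hA⟩ := h2 n k hn
    exact hA.trans (Nat.cast_le.2 (code_le h1 h3 hC.1))
  refine ⟨hev, fun n k hn => ?_⟩
  have h5 := hev (n + 1) (k + 1) hn.add_one
  have h6 : ((k : ℝ) + 1) * Qex (n + 1) (k + 1) ≤ (n + 1) * Qex n k := by exact_mod_cast h4 n k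
  have h7 : ((n : ℝ) + 1) * n.choose k = (n + 1).choose (k + 1) * (k + 1) := by
    exact_mod_cast Nat.add_one_mul_choose_eq n k
  set c : ℝ := 1 - ((4 : ℝ) ^ (k + 1) + (-2) ^ (k + 1) - 2) / (3 * (2 ^ (n + 1) + 2)) with hc
  have h8 : (0 : ℝ) < (n : ℝ) + 1 := by positivity
  have h9 : (0 : ℝ) < (k : ℝ) + 1 := by positivity
  have h10 : ((n : ℝ) + 1) * (c * n.choose k) ≤ (n + 1) * Qex n k := by
    calc ((n : ℝ) + 1) * (c * n.choose k) = (k + 1) * (c * (n + 1).choose (k + 1)) := by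
          linear_combination c * h7
      _ ≤ (k + 1) * Qex (n + 1) (k + 1) := mul_le_mul_of_nonneg_left h5 h9.le
      _ ≤ (n + 1) * Qex n k := h6
  exact le_of_mul_le_mul_left h10 h8

end Pool.Agent.N985.QX.LOW
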