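import Pool.Agent.N987.QX.Stm4

/-!
# Project QX: leaf LIMX (helper985): the limit of `R c k`
-/

set_option autoImplicit false

namespace Pool.Agent.N985.QX.LIMX

open Pool.Agent.N984.QX Pool.Agent.N987.QX Finset Filter Topology

/-- The constant. -/
noncomputable def pf (c : ℕ) : ℝ := ∏' j : ℕ, (1 - 1 / (2 : ℝ) ^ (c + 2 * (j + 1)))

theorem mult (c : ℕ) : Multipliable fun j : ℕ => (1 - 1 / (2 : ℝ) ^ (c + 2 * (j + 1))) := by
  have hs : Summable fun j : ℕ => -(1 / (2 : ℝ) ^ (c + 2 * (j + 1))) := by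
    apply Summable.neg
    have h : Summable fun j : ℕ => (1 / 4 : ℝ) ^ j :=
      summable_geometric_of_lt_one (by norm_num) (by norm_num)
    refine Summable.of_nonneg_of_le (fun j => by positivity) (fun j => ?_) h
    rw [one_div_pow, one_div_le_one_div (by positivity) (by positivity)]
    calc (4 : ℝ) ^ j = 2 ^ (2 * j) := by rw [pow_mul]; norm_num
      _ ≤ 2 ^ (c + 2 * (j + 1)) := pow_le_pow_right₀ (by norm_num) (by omega)
  exact (Real.multipliable_one_add_of_summable hs).congr fun j => by ring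

theorem fac (n : ℕ) : 0 ≤ 1 - 1 / (2 : ℝ) ^ n ∧ 1 - 1 / (2 : ℝ) ^ n ≤ 1 := by
  have h1 : 1 / (2 : ℝ) ^ n ≤ 1 := by
    rw [div_le_one (by positivity)]
    exact one_le_pow₀ (by norm_num)
  have h2 : 0 ≤ 1 / (2 : ℝ) ^ n := by positivity
  constructor <;> linarith

theorem pf_nonneg (c : ℕ) : 0 ≤ pf c :=
  ge_of_tendsto' (mult c).hasProd.tendsto_prod_nat fun _ => prod_nonneg fun _ _ => (fac _).1

theorem pf_le_one (c : ℕ) : pf c ≤ 1 :=
  le_of_tendsto' (mult c).hasProd.tendsto_prod_nat fun _ =>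
    prod_le_one (fun _ _ => (fac _).1) fun _ _ => (fac _).2

theorem pf_succ (c : ℕ) : pf c = (1 - 1 / (2 : ℝ) ^ (c + 2)) * pf (c + 2) := by
  have e : ∀ j : ℕ, (1 - 1 / (2 : ℝ) ^ (c + 2 * (j + 1 + 1))) =
      1 - 1 / (2 : ℝ) ^ (c + 2 + 2 * (j + 1)) := by
    intro j
    rw [show c + 2 * (j + 1 + 1) = c + 2 + 2 * (j + 1) by ring]
  have h := _root_.tprod_eq_zero_mul'
    (f := fun j : ℕ => (1 - 1 / (2 : ℝ) ^ (c + 2 * (j + 1)))) (by
      refine (mult (c + 2)).congr fun j => ?_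
      exact (e j).symm)
  unfold pf
  rw [h]
  congr 1
  exact tprod_congr e

theorem key : ∀ k c : ℕ, pf c * (1 - k / 2 ^ (k + c)) ≤ R c k := by
  intro k
  induction k using Nat.twoStepInduction with
  | zero =>
    intro c
    show _ ≤ (1 : ℝ)
    rw [Nat.cast_zero, zero_div, sub_zero, mul_one]
    exact pf_le_one c
  | one =>
    intro c
    show _ ≤ (1 : ℝ)
    rw [Nat.cast_one]
    have h1 := fac (1 + c)
    calc pf c * (1 - 1 / 2 ^ (1 + c)) ≤ 1 * 1 :=
          mul_le_mul (pf_le_one c) h1.2 h1.1 zero_le_one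
      _ = 1 := one_mul 1
  | more k ih _ =>
    intro c
    show _ ≤ (((2 : ℝ) ^ (2 * k + c + 3) - 2 ^ (2 * k + 1)) / (2 ^ (2 * k + c + 3) + 1)) *
      R (c + 2) k
    have h1 := ih (c + 2)
    set X : ℝ := 2 ^ (k + (c + 2)) with hX
    set M : ℝ := 2 ^ (2 * k + c + 3) with hM
    have hX0 : 0 < X := by rw [hX]; positivity
    have hM0 : 0 < M := by rw [hM]; positivity
    have hXM : X ≤ M := by
      rw [hX, hM]
      exact pow_le_pow_right₀ (by norm_num) (by omega)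
    have hf : (M - 2 ^ (2 * k + 1)) / (M + 1) = (1 - 1 / 2 ^ (c + 2)) * (M / (M + 1)) := by
      have e1 : M = 2 ^ (2 * k + 1) * 2 ^ (c + 2) := by
        rw [hM, ← pow_add]
        congr 1
        ring
      have e2 : (1 - 1 / (2 : ℝ) ^ (c + 2)) * M = M - 2 ^ (2 * k + 1) := by
        rw [e1]
        field_simp
      rw [← mul_div_assoc, e2]
    have hf0 : 0 ≤ (1 - 1 / (2 : ℝ) ^ (c + 2)) * (M / (M + 1)) :=
      mul_nonneg (fac _).1 (by positivity)
    rw [hf]
    refine le_trans ?_ (mul_le_mul_of_nonneg_left h1 hf0)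
    rw [pf_succ c]
    have hk : (k : ℝ) ≤ X := by
      have h2 : k ≤ 2 ^ (k + (c + 2)) :=
        (Nat.lt_two_pow_self (n := k)).le.trans (Nat.pow_le_pow_right (by norm_num) (by omega))
      rw [hX]
      exact_mod_cast h2
    have hmain : 1 - ((k + 2 : ℕ) : ℝ) / 2 ^ (k + 2 + c) ≤ M / (M + 1) * (1 - k / X) := by
      have e3 : (2 : ℝ) ^ (k + 2 + c) = X := by
        rw [hX]
        congr 1
        ring
      rw [e3]
      have e4 : M / (M + 1) = 1 - 1 / (M + 1) := by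
        field_simp
        ring
      have h5 : 1 / (M + 1) ≤ 2 / X := by
        rw [div_le_div_iff₀ (by positivity) hX0]
        linarith
      have h6 : 0 ≤ k / X := by positivity
      have h7 : 0 ≤ 1 / (M + 1) := by positivity
      have e8 : ((k + 2 : ℕ) : ℝ) / X = k / X + 2 / X := by
        push_cast
        ring
      rw [e4, e8]
      nlinarith [mul_nonneg h6 h7]
    have h9 : 0 ≤ (1 - 1 / (2 : ℝ) ^ (c + 2)) * pf (c + 2) :=
      mul_nonneg (fac _).1 (pf_nonneg _)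
    calc (1 - 1 / (2 : ℝ) ^ (c + 2)) * pf (c + 2) * (1 - ((k + 2 : ℕ) : ℝ) / 2 ^ (k + 2 + c))
        ≤ (1 - 1 / (2 : ℝ) ^ (c + 2)) * pf (c + 2) * (M / (M + 1) * (1 - k / X)) :=
          mul_le_mul_of_nonneg_left hmain h9
      _ = (1 - 1 / (2 : ℝ) ^ (c + 2)) * (M / (M + 1)) * (pf (c + 2) * (1 - k / X)) := by ring

theorem t_LIMX : S_LIMX := fun c k => key k c

end Pool.Agent.N985.QX.LIMX
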