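import Pool.Agent.N987.QX.Stm4

/-!
# Project QX: leaf TOT (helper985; the first part is copied from AVG.lean of helper984)
-/

set_option autoImplicit false

namespace Pool.Agent.N985.QX.TOT

open Pool.Agent.N984.QX Pool.Agent.N987.QX

open Classical in
/-- the number of the Hermitian self-dual codes through an isotropic vector -/
theorem count (hT : S_TRANS) (hC : S_CARD) (hI : S_ISO) (n : ℕ) (hn : Even n) (v : Vc n)
    (hv0 : v ≠ 0) (hv : B v (J v) = 0) :
    (Set.ncard {C ∈ Herm n | v ∈ C} : ℝ) * (2 ^ n + 2) = 2 * Set.ncard (Herm n) := by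
  have hfin : Finite (Submodule (ZMod 2) (Vc n)) :=
    Finite.of_injective (fun C : Submodule (ZMod 2) (Vc n) => (C : Set (Vc n)))
      SetLike.coe_injective
  set L : Finset (Submodule (ZMod 2) (Vc n)) := (Set.toFinite (Herm n)).toFinset with hL
  have hmem : ∀ C, C ∈ L ↔ C ∈ Herm n := fun C => Set.Finite.mem_toFinset _
  set U : Finset (Vc n) := Finset.univ.filter (fun v => v ≠ 0 ∧ B v (J v) = 0) with hU
  have hUmem : ∀ v, v ∈ U ↔ v ≠ 0 ∧ B v (J v) = 0 := fun v => by simp [hU]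
  set N : Vc n → ℕ := fun v => (L.filter (fun C => v ∈ C)).card with hNdef
  -- all counts agree
  have hNeq : ∀ v ∈ U, ∀ w ∈ U, N v = N w := by
    intro v hv w hw
    have h1 := hT n v w ((hUmem v).mp hv).1 ((hUmem w).mp hw).1 ((hUmem v).mp hv).2
      ((hUmem w).mp hw).2
    have h2 : ∀ u : Vc n, Set.ncard {C ∈ Herm n | u ∈ C} = N u := by
      intro u
      change _ = (L.filter (fun C => u ∈ C)).card
      rw [← Set.ncard_coe_finset]
      congr 1
      ext C
      simp [hmem]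
    rwa [h2, h2] at h1
  -- isotropy of code words
  have hiso : ∀ C ∈ L, ∀ v ∈ C, B v (J v) = 0 := by
    intro C hCL v hv
    have h1 := (hmem C).mp hCL
    exact ((h1.1 v).mp hv) _ (h1.2 v hv)
  have hcardC : ∀ C ∈ L, (U.filter (fun v => v ∈ C)).card + 1 = 2 ^ n := by
    intro C hCL
    have h1 := hC n C ((hmem C).mp hCL).1
    rw [← h1]
    have h2 : Nat.card C = (Finset.univ.filter (fun v => v ∈ C)).card :=
      (Nat.card_eq_fintype_card (α := {v // v ∈ C})).trans (Fintype.card_subtype (fun v => v ∈ C))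
    rw [h2]
    have h3 : Finset.univ.filter (fun v => v ∈ C) = insert 0 (U.filter (fun v => v ∈ C)) := by
      ext v
      simp only [Finset.mem_filter, Finset.mem_univ, true_and, Finset.mem_insert, hUmem]
      constructor
      · intro hv
        by_cases h0 : v = 0
        · exact Or.inl h0
        · exact Or.inr ⟨⟨h0, hiso C hCL v hv⟩, hv⟩
      · rintro (h0 | h0)
        · rw [h0]; exact zero_mem _
        · exact h0.2
    rw [h3, Finset.card_insert_of_notMem]
    intro h0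
    exact ((hUmem 0).mp (Finset.mem_filter.mp h0).1).1 rfl
  have hsumN : ∑ v ∈ U, N v = L.card * (2 ^ n - 1) := by
    have h1 : ∑ v ∈ U, N v = ∑ C ∈ L, (U.filter (fun v => v ∈ C)).card := by
      simp only [hNdef, Finset.card_filter]
      exact Finset.sum_comm
    rw [h1, Finset.sum_congr rfl (fun C hCL => (by
      have := hcardC C hCL
      omega : (U.filter (fun v => v ∈ C)).card = 2 ^ n - 1)), Finset.sum_const, smul_eq_mul]
  -- the number of isotropic vectors supported in A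
  have hSA : ∀ A : Finset (Fin n), 2 * (((U.filter (fun v => ∀ i, i ∉ A → v i = 0)).card : ℤ) + 1) =
      4 ^ A.card + (-2) ^ A.card := by
    intro A
    rw [← hI n A]
    congr 1
    have h1 : {v : Vc n | (∀ i, i ∉ A → v i = 0) ∧ B v (J v) = 0} =
        ((insert 0 (U.filter (fun v => ∀ i, i ∉ A → v i = 0)) : Finset (Vc n)) : Set (Vc n)) := by
      ext v
      simp only [Set.mem_ofPred_eq, Finset.coe_insert, Finset.coe_filter, Set.mem_insert_iff, hUmem]
      constructor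
      · rintro ⟨h1, h2⟩
        by_cases h0 : v = 0
        · exact Or.inl h0
        · exact Or.inr ⟨⟨h0, h2⟩, h1⟩
      · rintro (h0 | h0)
        · rw [h0]
          refine ⟨fun i _ => rfl, ?_⟩
          simp [B]
        · exact ⟨h0.2, h0.1.2⟩
    rw [h1, Set.ncard_coe_finset, Finset.card_insert_of_notMem]
    · push_cast; ring
    · intro h0
      exact ((hUmem 0).mp (Finset.mem_filter.mp h0).1).1 rfl
  have hUcard : 2 * ((U.card : ℤ) + 1) = 4 ^ n + 2 ^ n := by
    have h1 := hSA Finset.univ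
    have h2 : U.filter (fun v => ∀ i, i ∉ (Finset.univ : Finset (Fin n)) → v i = 0) = U := by
      refine Finset.filter_true_of_mem (fun v _ i hi => absurd (Finset.mem_univ i) hi)
    rw [h2, Finset.card_univ, Fintype.card_fin, Even.neg_pow hn] at h1
    exact h1
  have hcount : ∀ v ∈ U, (N v : ℝ) * (2 ^ n + 2) = 2 * L.card := by
    intro v hv
    have h1 : ∑ w ∈ U, N w = U.card * N v := by
      rw [Finset.sum_congr rfl (fun w hw => hNeq w hw v hv), Finset.sum_const, smul_eq_mul]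
    have hn1 : n ≠ 0 := by
      rintro rfl
      have := ((hUmem v).mp hv).1
      exact this (funext fun i => i.elim0)
    have h2n : (2 : ℝ) ≤ 2 ^ n := by
      calc (2 : ℝ) = 2 ^ 1 := by norm_num
        _ ≤ 2 ^ n := pow_le_pow_right₀ (by norm_num) (Nat.one_le_iff_ne_zero.mpr hn1)
    have h2 : (U.card : ℝ) * N v = L.card * (2 ^ n - 1) := by
      have h3 : ((U.card * N v : ℕ) : ℝ) = ((L.card * (2 ^ n - 1) : ℕ) : ℝ) := by
        rw [← h1, hsumN]
      push_cast [Nat.one_le_two_pow] at h3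
      exact h3
    have h4 : 2 * ((U.card : ℝ) + 1) = 4 ^ n + 2 ^ n := by exact_mod_cast hUcard
    have h5 : (4 : ℝ) ^ n = 2 ^ n * 2 ^ n := by
      rw [← mul_pow]; norm_num
    have h6 : (U.card : ℝ) = (2 ^ n - 1) * (2 ^ n + 2) / 2 := by
      rw [h5] at h4
      linarith
    rw [h6] at h2
    have h7 : ((2 : ℝ) ^ n - 1) ≠ 0 := by
      have : (0 : ℝ) < 2 ^ n - 1 := by linarith
      exact ne_of_gt this
    have h8 : ((2 : ℝ) ^ n - 1) * (N v * (2 ^ n + 2)) = (2 ^ n - 1) * (2 * L.card) := by linarith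
    exact mul_left_cancel₀ h7 h8
  have h1 := hcount v ((hUmem v).mpr ⟨hv0, hv⟩)
  have h2 : Set.ncard {C ∈ Herm n | v ∈ C} = N v := by
    change _ = (L.filter (fun C => v ∈ C)).card
    rw [← Set.ncard_coe_finset]
    congr 1
    ext C
    simp [hmem]
  have h3 : Set.ncard (Herm n) = L.card := by
    rw [← Set.ncard_coe_finset]
    congr 1
    ext C
    simp [hmem]
  rw [h2, h3]
  exact h1

section ext

variable {n : ℕ}

/-- extension by zero -/
def io : Vc n →ₗ[ZMod 2] Vc (n + 2) where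
  toFun w := Fin.cons 0 (Fin.cons 0 w)
  map_add' v w := by
    funext i
    refine Fin.cases ?_ (fun i => Fin.cases ?_ (fun i => ?_) i) i
    · exact (add_zero _).symm
    · exact (add_zero _).symm
    · rfl
  map_smul' c w := by
    funext i
    refine Fin.cases ?_ (fun i => Fin.cases ?_ (fun i => ?_) i) i
    · show (0 : ZMod 2 × ZMod 2) = c • (0 : ZMod 2 × ZMod 2)
      rw [smul_zero]
    · show (0 : ZMod 2 × ZMod 2) = c • (0 : ZMod 2 × ZMod 2)
      rw [smul_zero]
    · rfl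

/-- the vector `(x, x, 0)` -/
def ee (x : ZMod 2 × ZMod 2) : Vc (n + 2) := Fin.cons x (Fin.cons x 0)

/-- the last coordinates -/
def tl (z : Vc (n + 2)) : Vc n := fun i => z i.succ.succ

theorem B_eq (z w : Vc (n + 2)) : B z w = ((z 0).1 * (w 0).2 + (z 0).2 * (w 0).1) +
    (((z 1).1 * (w 1).2 + (z 1).2 * (w 1).1) + B (tl z) (tl w)) := by
  unfold B
  rw [Fin.sum_univ_succ, Fin.sum_univ_succ]
  rfl

theorem B_zero (z : Vc n) : B z 0 = 0 := by
  unfold B
  refine Finset.sum_eq_zero fun i _ => ?_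
  rw [Pi.zero_apply, Prod.fst_zero, Prod.snd_zero, mul_zero, mul_zero, add_zero]

theorem B_ee (z : Vc (n + 2)) (x : ZMod 2 × ZMod 2) : B z (ee x) =
    ((z 0).1 * x.2 + (z 0).2 * x.1) + ((z 1).1 * x.2 + (z 1).2 * x.1) := by
  rw [B_eq]
  have h1 : tl (ee x : Vc (n + 2)) = 0 := rfl
  rw [h1, B_zero, add_zero]
  rfl

theorem B_io (w : Vc n) (z : Vc (n + 2)) : B (io w) z = B w (tl z) := by
  rw [B_eq]
  have h1 : (io w : Vc (n + 2)) 0 = 0 := rfl
  have h2 : (io w : Vc (n + 2)) 1 = 0 := rfl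
  have h3 : tl (io w : Vc (n + 2)) = w := rfl
  rw [h1, h2, h3, Prod.fst_zero, Prod.snd_zero]
  ring

theorem J_io (w : Vc n) : J (io w) = io (J w) := by
  funext i
  refine Fin.cases ?_ (fun i => Fin.cases ?_ (fun i => ?_) i) i
  · rfl
  · rfl
  · rfl

theorem J_ee : J (ee (1, 0) : Vc (n + 2)) = ee (0, 1) := by
  funext i
  refine Fin.cases ?_ (fun i => Fin.cases ?_ (fun i => ?_) i) i
  · rfl
  · rfl
  · rfl

theorem ee_eq (x : ZMod 2 × ZMod 2) :
    (ee x : Vc (n + 2)) = x.1 • ee (1, 0) + x.2 • ee (0, 1) := by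
  have key : x = x.1 • ((1, 0) : ZMod 2 × ZMod 2) + x.2 • ((0, 1) : ZMod 2 × ZMod 2) := by
    ext <;> simp
  funext i
  refine Fin.cases ?_ (fun i => Fin.cases ?_ (fun i => ?_) i) i
  · exact key
  · exact key
  · show (0 : ZMod 2 × ZMod 2) = x.1 • (0 : ZMod 2 × ZMod 2) + x.2 • (0 : ZMod 2 × ZMod 2)
    rw [smul_zero, smul_zero, add_zero]

theorem split {z : Vc (n + 2)} (h : z 0 = z 1) : z = io (tl z) + ee (z 0) := by
  funext i
  refine Fin.cases ?_ (fun i => Fin.cases ?_ (fun i => ?_) i) i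
  · exact (zero_add _).symm
  · show z 1 = 0 + z 0
    rw [zero_add, h]
  · exact (add_zero _).symm

theorem eq_of_add {a b : ZMod 2} (h : a + b = 0) : a = b := by
  have h1 : b + b = 0 := CharTwo.add_self_eq_zero b
  linear_combination h - h1

variable {C : Submodule (ZMod 2) (Vc (n + 2))}

theorem ee_mem (hC : C ∈ Herm (n + 2)) (hv : ee (1, 0) ∈ C) (x : ZMod 2 × ZMod 2) :
    ee x ∈ C := by
  have h1 : ee (0, 1) ∈ C := by
    rw [← J_ee]
    exact hC.2 _ hv
  rw [ee_eq]
  exact C.add_mem (C.smul_mem _ hv) (C.smul_mem _ h1)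

theorem zz (hC : C ∈ Herm (n + 2)) (hv : ee (1, 0) ∈ C) {z : Vc (n + 2)} (hz : z ∈ C) :
    z 0 = z 1 := by
  have h1 := (hC.1 z).1 hz _ (ee_mem hC hv (1, 0))
  have h2 := (hC.1 z).1 hz _ (ee_mem hC hv (0, 1))
  rw [B_ee] at h1 h2
  simp only [mul_zero, mul_one, zero_add, add_zero] at h1 h2
  exact Prod.ext (eq_of_add h2) (eq_of_add h1)

theorem tl_mem (hC : C ∈ Herm (n + 2)) (hv : ee (1, 0) ∈ C) {z : Vc (n + 2)} (hz : z ∈ C) :
    io (tl z) ∈ C := by
  have h1 := split (zz hC hv hz)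
  have h2 : io (tl z) = z - ee (z 0) := by
    rw [eq_sub_iff_add_eq]
    exact h1.symm
  rw [h2]
  exact C.sub_mem hz (ee_mem hC hv _)

theorem comap_mem (hC : C ∈ Herm (n + 2)) (hv : ee (1, 0) ∈ C) : C.comap io ∈ Herm n := by
  refine ⟨fun w => ⟨fun hw u hu => ?_, fun h => ?_⟩, fun w hw => ?_⟩
  · have h1 := (hC.1 (io w)).1 hw (io u) hu
    rw [B_io] at h1
    exact h1
  · refine (hC.1 (io w)).2 fun z hz => ?_
    rw [B_io]
    exact h _ (tl_mem hC hv hz)
  · show io (J w) ∈ C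
    rw [← J_io]
    exact hC.2 _ hw

theorem le_of_comap {C' : Submodule (ZMod 2) (Vc (n + 2))} (hC : C ∈ Herm (n + 2))
    (hv : ee (1, 0) ∈ C) (hC' : C' ∈ Herm (n + 2)) (hv' : ee (1, 0) ∈ C')
    (h : C.comap io = C'.comap io) : C ≤ C' := by
  intro z hz
  rw [split (zz hC hv hz)]
  refine C'.add_mem ?_ (ee_mem hC' hv' _)
  have h1 : tl z ∈ C.comap io := tl_mem hC hv hz
  rw [h] at h1
  exact h1

end ext

theorem t_TOT (hT : S_TRANS) (hC : S_CARD) (hI : S_ISO) : S_TOT := by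
  intro n hn
  have hfin : ∀ m, Finite (Submodule (ZMod 2) (Vc m)) := fun m =>
    Finite.of_injective (fun C : Submodule (ZMod 2) (Vc m) => (C : Set (Vc m)))
      SetLike.coe_injective
  have h1 := count hT hC hI (n + 2) (hn.add (by decide)) (ee (1, 0)) (by
    intro h
    have h2 : ((1, 0) : ZMod 2 × ZMod 2) = 0 := congrFun h 0
    exact absurd h2 (by decide)) (by
    rw [J_ee, B_ee]
    show ((1 : ZMod 2) * 1 + 0 * 0) + (1 * 1 + 0 * 0) = 0
    decide)
  have h2 : Set.ncard {C ∈ Herm (n + 2) | ee (1, 0) ∈ C} ≤ Set.ncard (Herm n) := by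
    have hf := hfin n
    refine Set.ncard_le_ncard_of_injOn (fun C => C.comap io)
      (fun C hC => comap_mem hC.1 hC.2) ?_ (Set.toFinite _)
    intro C hC C' hC' h
    exact le_antisymm (le_of_comap hC.1 hC.2 hC'.1 hC'.2 h)
      (le_of_comap hC'.1 hC'.2 hC.1 hC.2 h.symm)
  have h3 : (Set.ncard {C ∈ Herm (n + 2) | ee (1, 0) ∈ C} : ℝ) ≤ Set.ncard (Herm n) :=
    Nat.cast_le.2 h2
  have h4 : (Set.ncard (Herm (n + 2)) : ℝ) =
      (2 ^ (n + 1) + 1) * Set.ncard {C ∈ Herm (n + 2) | ee (1, 0) ∈ C} := by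
    have e : (2 : ℝ) ^ (n + 2) + 2 = 2 * (2 ^ (n + 1) + 1) := by ring
    rw [e] at h1
    linarith
  rw [h4]
  exact mul_le_mul_of_nonneg_left h3 (by positivity)

end Pool.Agent.N985.QX.TOT
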